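import Pool.Agent.W_MP_0d5018_nt.Tree

/-!
# The lower bound when only the number of terms per octave is controlled
-/

namespace Pool.Agent.W_0d5018_h9

open Classical

open Pool.Agent.W_MP_0d5018_nt (bad alive tree_growth alive_nonempty exists_point)

/-- One frequency spoils at most `8` intervals of a window. -/
theorem bad_one (r n : ℕ) (hr : 1 ≤ r) (t : ℝ) (lo : (2 : ℝ) ^ n ≤ t) (hi : t < (2 : ℝ) ^ (n + 1))
    (J : ℕ) :
    ((Finset.Ico (J * 2 ^ r) ((J + 1) * 2 ^ r)).filter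
      (fun k : ℕ => ∃ z : ℤ, |t * ((k : ℝ) / 2 ^ (n + (r + 5))) - z| < 4 / 2 ^ (r + 5))).card ≤ 8 := by
  set w := r + 5 with hw
  set B : Finset ℕ := (Finset.Ico (J * 2 ^ r) ((J + 1) * 2 ^ r)).filter
    (fun k => ∃ z : ℤ, |t * ((k : ℝ) / 2 ^ (n + w)) - z| < 4 / 2 ^ w) with hB
  have hwr : (32 : ℝ) * 2 ^ r ≤ 2 ^ w := by
    have : (2 : ℝ) ^ w = 2 ^ r * 32 := by rw [hw, pow_add]; norm_num
    rw [this]
    linarith
  have hr2 : (2 : ℝ) ≤ 2 ^ r := by
    calc (2 : ℝ) = 2 ^ 1 := by norm_num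
      _ ≤ 2 ^ r := pow_le_pow_right₀ (by norm_num) hr
  have hw0 : (0 : ℝ) < 2 ^ w := by positivity
  have s1 : 1 / 2 ^ w ≤ t / 2 ^ (n + w) := by
    rw [pow_add 2 n w, div_le_div_iff₀ hw0 (by positivity), one_mul]
    exact mul_le_mul_of_nonneg_right lo hw0.le
  have s2 : t / 2 ^ (n + w) ≤ 2 / 2 ^ w := by
    rw [pow_add 2 n w, div_le_div_iff₀ (by positivity) hw0, ← mul_assoc]
    refine mul_le_mul_of_nonneg_right ?_ hw0.le
    rw [pow_succ, mul_comm] at hi
    exact hi.le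
  rcases Finset.eq_empty_or_nonempty B with he | hne
  · rw [he]; simp
  · set k0 := B.min' hne with hk0
    have hk0m : k0 ∈ B := Finset.min'_mem _ _
    have hsub : B ⊆ Finset.Icc k0 (k0 + 7) := by
      intro k hk
      have hle : k0 ≤ k := Finset.min'_le _ _ hk
      rw [Finset.mem_Icc]
      refine ⟨hle, ?_⟩
      by_contra hcon
      push Not at hcon
      rw [hB, Finset.mem_filter, Finset.mem_Ico] at hk0m hk
      obtain ⟨⟨a1, a2⟩, z0, a3⟩ := hk0m
      obtain ⟨⟨b1, b2⟩, z, b3⟩ := hk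
      obtain ⟨d, rfl⟩ : ∃ d, k = k0 + d := ⟨k - k0, by omega⟩
      have hd1 : d ≤ 2 ^ r := by
        rw [add_mul, one_mul] at b2; omega
      have hd2 : 8 ≤ d := by omega
      have hd1r : (d : ℝ) ≤ 2 ^ r := by exact_mod_cast hd1
      have hd2r : (8 : ℝ) ≤ d := by exact_mod_cast hd2
      have e1 : t * (((k0 + d : ℕ) : ℝ) / 2 ^ (n + w)) =
          t * ((k0 : ℝ) / 2 ^ (n + w)) + t / 2 ^ (n + w) * d := by
        push_cast; ring
      rw [e1] at b3
      have c1 := abs_lt.1 a3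
      have c2 := abs_lt.1 b3
      have c3 : t / 2 ^ (n + w) * d ≤ 2 / 2 ^ w * 2 ^ r :=
        mul_le_mul s2 hd1r (by positivity) (by positivity)
      have c4 : 1 / 2 ^ w * 8 ≤ t / 2 ^ (n + w) * d :=
        mul_le_mul s1 hd2r (by norm_num) (le_trans (by positivity) s1)
      have c5 : (2 : ℝ) / 2 ^ w * 2 ^ r ≤ 1 / 16 := by
        rw [div_mul_eq_mul_div, div_le_div_iff₀ hw0 (by norm_num)]
        linarith
      have c6 : (4 : ℝ) / 2 ^ w ≤ 1 / 16 := by
        rw [div_le_div_iff₀ hw0 (by norm_num)]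
        linarith
      have c7 : (1 : ℝ) / 2 ^ w * 8 = 4 / 2 ^ w + 4 / 2 ^ w := by ring
      have z1 : z = z0 := by
        have z2 : (z : ℝ) - z0 < 1 := by linarith [c1.1, c1.2, c2.1, c2.2]
        have z3 : -1 < (z : ℝ) - z0 := by linarith [c1.1, c1.2, c2.1, c2.2]
        have z4 : z - z0 < 1 := by exact_mod_cast z2
        have z5 : -1 < z - z0 := by exact_mod_cast z3
        omega
      rw [z1] at c2
      linarith [c1.1, c1.2, c2.1, c2.2]
    calc B.card ≤ (Finset.Icc k0 (k0 + 7)).card := Finset.card_le_card hsub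
      _ = 8 := by rw [Nat.card_Icc]; omega

/-- `(1 - 1 / r) ^ (r - 1)` is at least a quarter. -/
theorem quarter (r : ℕ) (hr : 2 ≤ r) : (1 : ℝ) / 4 ≤ (1 - 1 / r) ^ (r - 1) := by
  obtain ⟨s, rfl⟩ : ∃ s, r = s + 1 := ⟨r - 1, by omega⟩
  have hs : 1 ≤ s := by omega
  have hsr : (1 : ℝ) ≤ s := by exact_mod_cast hs
  have h1 : (1 : ℝ) - 1 / ((s + 1 : ℕ) : ℝ) = (1 + 1 / (s : ℝ))⁻¹ := by
    push_cast
    field_simp
    ring
  rw [h1, Nat.add_sub_cancel, inv_pow]
  have h2 : (1 + 1 / (s : ℝ)) ^ s ≤ 4 := by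
    have h3 : (1 + 1 / (s : ℝ)) ^ s ≤ Real.exp 1 := by
      have h4 : 1 + 1 / (s : ℝ) ≤ Real.exp (1 / s) := by
        have := Real.add_one_le_exp (1 / (s : ℝ)); linarith
      calc (1 + 1 / (s : ℝ)) ^ s ≤ (Real.exp (1 / s)) ^ s :=
            pow_le_pow_left₀ (by positivity) h4 s
        _ = Real.exp 1 := by
            rw [← Real.exp_nat_mul]; congr 1; field_simp
    exact h3.trans (by linarith [Real.exp_one_lt_d9])
  have h3 : (0 : ℝ) < (1 + 1 / (s : ℝ)) ^ s := by positivity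
  rw [one_div]
  exact inv_anti₀ h3 h2

/-- The Peres and Schlag argument for level sets of at most `2 ^ lam` elements. -/
theorem exists_levels (lam κ : ℕ) (h1 : lam ≤ 2 ^ κ) (T : ℕ → Finset ℝ)
    (lo : ∀ n, ∀ t ∈ T n, (2 : ℝ) ^ n ≤ t) (hi : ∀ n, ∀ t ∈ T n, t < (2 : ℝ) ^ (n + 1))
    (card : ∀ n, (T n).card ≤ 2 ^ lam) (hT0 : ∀ n < lam + κ + 12, T n = ∅) :
    ∃ α : ℝ, ∀ n, ∀ t ∈ T n, ∀ z : ℤ, (2 : ℝ) / 2 ^ (lam + κ + 17) ≤ |t * α - z| := by
  obtain ⟨r, hr⟩ : ∃ r, r = lam + κ + 12 := ⟨_, rfl⟩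
  have hw : lam + κ + 17 = r + 5 := by omega
  rw [hw]
  have hr2 : 2 ≤ r := by omega
  have hr0 : (0 : ℝ) < r := by exact_mod_cast (show 0 < r by omega)
  have hθ1 : (1 : ℝ) / r ≤ 1 / 2 := by
    rw [div_le_div_iff₀ hr0 (by norm_num)]
    have : (2 : ℝ) ≤ r := by exact_mod_cast hr2
    linarith
  have hg := tree_growth T (r + 5) r 0 (by omega) (1 / r) (8 * 2 ^ lam) 0 (by positivity)
    (by linarith) (by positivity) (fun _ _ => False) (fun n hn => hT0 n (by omega)) (by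
      intro s J _
      rw [add_zero]
      have hsub : (Finset.Ico (J * 2 ^ r) ((J + 1) * 2 ^ r)).filter (bad T (r + 5) (s + r)) ⊆
          (T (s + r)).biUnion (fun t => (Finset.Ico (J * 2 ^ r) ((J + 1) * 2 ^ r)).filter
            (fun k => ∃ z : ℤ, |t * ((k : ℝ) / 2 ^ (s + r + (r + 5))) - z| < 4 / 2 ^ (r + 5))) := by
        intro k hk
        rw [Finset.mem_filter] at hk
        obtain ⟨hk1, t, ht, z, hz⟩ := hk
        rw [Finset.mem_biUnion]
        exact ⟨t, ht, Finset.mem_filter.2 ⟨hk1, z, hz⟩⟩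
      have h2 : ((Finset.Ico (J * 2 ^ r) ((J + 1) * 2 ^ r)).filter (bad T (r + 5) (s + r))).card
          ≤ 8 * 2 ^ lam := by
        refine (Finset.card_le_card hsub).trans (Finset.card_biUnion_le.trans ?_)
        calc _ ≤ ∑ _t ∈ T (s + r), 8 := Finset.sum_le_sum fun t ht =>
              bad_one r (s + r) (by omega) t (lo _ t ht) (hi _ t ht) J
          _ = (T (s + r)).card * 8 := by rw [Finset.sum_const, smul_eq_mul]
          _ ≤ 2 ^ lam * 8 := Nat.mul_le_mul_right 8 (card _)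
          _ = 8 * 2 ^ lam := by ring
      exact_mod_cast h2) (by
      intro s I
      simp) (by
      have h2 := quarter r hr2
      have h3 : (2 * (1 - 1 / (r : ℝ))) ^ (r - 1) = 2 ^ (r - 1) * (1 - 1 / r) ^ (r - 1) := by
        rw [mul_pow]
      rw [h3]
      have h4 : (2 : ℝ) ^ (r - 1) * (1 / 4) ≤ 2 ^ (r - 1) * (1 - 1 / r) ^ (r - 1) :=
        mul_le_mul_of_nonneg_left h2 (by positivity)
      have h5 : (8 : ℝ) * 2 ^ lam ≤ 1 / r * (2 ^ (r - 1) * (1 / 4)) := by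
        have h6 : (64 : ℝ) * r ≤ 2 ^ (κ + 12) := by
          have h7 : κ ≤ 2 ^ κ := Nat.lt_two_pow_self.le
          have h8 : 1 ≤ 2 ^ κ := Nat.one_le_two_pow
          have h9 : 64 * r ≤ 2 ^ (κ + 12) := by
            rw [pow_add]
            omega
          exact_mod_cast h9
        have h7 : (2 : ℝ) ^ (r - 1) * 2 = 2 ^ lam * 2 ^ (κ + 12) := by
          rw [← pow_succ, ← pow_add]; congr 1; omega
        have h8 : (0 : ℝ) < 2 ^ lam := by positivity
        rw [div_mul_eq_mul_div, le_div_iff₀ hr0]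
        nlinarith
      exact h5.trans (mul_le_mul_of_nonneg_left h4 (by positivity))) (by
      simp only [zero_mul, mul_zero]
      have : (0 : ℝ) ≤ 1 - 1 / r := by linarith
      positivity)
  refine exists_point T (r + 5) (fun n t ht => ⟨?_, hi n t ht⟩) (hT0 0 (by omega))
    (fun n => alive_nonempty T (r + 5) (1 / r) (by linarith) hg n)
  exact le_trans (by positivity) (lo n t ht)

/-- The lower bound when only the number of terms per octave is controlled. -/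
theorem exists_alpha_oct (lam κ : ℕ) (h1 : lam ≤ 2 ^ κ) (t : ℕ → ℝ) (ht0 : ∀ j, 0 < t j)
    (hmono : StrictMono t) (ht : ∀ j, 2 * t j ≤ t (j + 2 ^ lam)) :
    ∃ α : ℝ, ∀ j, ∀ z : ℤ, (2 : ℝ) / 2 ^ (lam + κ + 17) ≤ |α * t j - z| := by
  obtain ⟨g, hg⟩ : ∃ g, g = lam + κ + 12 := ⟨_, rfl⟩
  set s : ℕ → ℝ := fun j => 2 ^ g / t 0 * t j with hs
  have hc : 0 < (2 : ℝ) ^ g / t 0 := div_pos (by positivity) (ht0 0)
  have hs0 : s 0 = 2 ^ g := by
    rw [hs]; simp only; exact div_mul_cancel₀ _ (ht0 0).ne'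
  have hspos : ∀ j, 0 < s j := fun j => mul_pos hc (ht0 j)
  have hmono1 : StrictMono s := fun i j hij => mul_lt_mul_of_pos_left (hmono hij) hc
  have hdouble : ∀ j, 2 * s j ≤ s (j + 2 ^ lam) := by
    intro j
    calc 2 * s j = 2 ^ g / t 0 * (2 * t j) := by rw [hs]; ring
      _ ≤ _ := mul_le_mul_of_nonneg_left (ht j) hc.le
  have hgrow : ∀ i : ℕ, 2 ^ i * s 0 ≤ s (i * 2 ^ lam) := by
    intro i
    induction i with
    | zero => simp
    | succ i ih =>
      have h2 := hdouble (i * 2 ^ lam)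
      have h3 : (i + 1) * 2 ^ lam = i * 2 ^ lam + 2 ^ lam := by ring
      rw [h3, pow_succ]
      linarith
  set T : ℕ → Finset ℝ := fun n => ((Finset.range ((n + 1) * 2 ^ lam)).filter
    (fun j => (2 : ℝ) ^ n ≤ s j ∧ s j < 2 ^ (n + 1))).image s with hT
  have hmem : ∀ n j, (2 : ℝ) ^ n ≤ s j → s j < 2 ^ (n + 1) → s j ∈ T n := by
    intro n j h4 h5
    rw [hT, Finset.mem_image]
    refine ⟨j, ?_, rfl⟩
    rw [Finset.mem_filter, Finset.mem_range]
    refine ⟨?_, h4, h5⟩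
    by_contra hcon
    rw [not_lt] at hcon
    have h6 := hmono1.monotone hcon
    have h7 := hgrow (n + 1)
    rw [hs0] at h7
    have h8 : (1 : ℝ) ≤ 2 ^ g := one_le_pow₀ (by norm_num)
    have h9 : (0 : ℝ) < 2 ^ (n + 1) := by positivity
    nlinarith
  have hlo : ∀ n, ∀ x ∈ T n, (2 : ℝ) ^ n ≤ x := by
    intro n x hx
    rw [hT, Finset.mem_image] at hx
    obtain ⟨j, hj, rfl⟩ := hx
    exact (Finset.mem_filter.1 hj).2.1
  have hhi : ∀ n, ∀ x ∈ T n, x < (2 : ℝ) ^ (n + 1) := by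
    intro n x hx
    rw [hT, Finset.mem_image] at hx
    obtain ⟨j, hj, rfl⟩ := hx
    exact (Finset.mem_filter.1 hj).2.2
  have hcard : ∀ n, (T n).card ≤ 2 ^ lam := by
    intro n
    refine Finset.card_image_le.trans ?_
    set B := (Finset.range ((n + 1) * 2 ^ lam)).filter
      (fun j => (2 : ℝ) ^ n ≤ s j ∧ s j < 2 ^ (n + 1)) with hB
    rcases Finset.eq_empty_or_nonempty B with he | hne
    · rw [he]; simp
    · have hm := Finset.min'_mem B hne
      set j0 := B.min' hne with hj0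
      have hsub : B ⊆ Finset.Ico j0 (j0 + 2 ^ lam) := by
        intro j hj
        have hle : j0 ≤ j := Finset.min'_le _ _ hj
        rw [Finset.mem_Ico]
        refine ⟨hle, ?_⟩
        by_contra hcon
        rw [not_lt] at hcon
        have h6 := hmono1.monotone hcon
        have h7 := (Finset.mem_filter.1 hm).2.1
        have h8 := (Finset.mem_filter.1 hj).2.2
        have h9 := hdouble j0
        rw [pow_succ] at h8
        linarith
      calc B.card ≤ (Finset.Ico j0 (j0 + 2 ^ lam)).card := Finset.card_le_card hsub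
        _ = 2 ^ lam := by rw [Nat.card_Ico, Nat.add_sub_cancel_left]
  have hempty : ∀ n < lam + κ + 12, T n = ∅ := by
    intro n hn
    rw [hT, Finset.image_eq_empty, Finset.filter_eq_empty_iff]
    rintro j - ⟨-, h5⟩
    have h6 : s 0 ≤ s j := hmono1.monotone (Nat.zero_le j)
    rw [hs0] at h6
    have h7 : (2 : ℝ) ^ (n + 1) ≤ 2 ^ g := pow_le_pow_right₀ (by norm_num) (by omega)
    linarith
  obtain ⟨α, hα⟩ := exists_levels lam κ h1 T hlo hhi hcard hempty
  refine ⟨α * (2 ^ g / t 0), fun j z => ?_⟩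
  have h6 : s 0 ≤ s j := hmono1.monotone (Nat.zero_le j)
  rw [hs0] at h6
  have h7 : (1 : ℝ) ≤ 2 ^ g := one_le_pow₀ (by norm_num)
  obtain ⟨n, hn1, hn2⟩ := exists_nat_pow_near (h7.trans h6) (show (1 : ℝ) < 2 by norm_num)
  have h8 := hα n (s j) (hmem n j hn1 hn2) z
  rw [show α * (2 ^ g / t 0) * t j = s j * α by rw [hs]; ring]
  exact h8

end Pool.Agent.W_0d5018_h9
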