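import Mathlib

/-!
# Distance to the nearest integer and the two cases of Dirichlet approximation
-/

namespace Pool.Agent.W_0d5018_h9

/-- The distance from `x` to the nearest integer. -/
noncomputable def nearest (x : ℝ) : ℝ := |x - round x|

theorem nearest_nonneg (x : ℝ) : 0 ≤ nearest x := abs_nonneg _

theorem nearest_le_half (x : ℝ) : nearest x ≤ 1 / 2 := abs_sub_round _

theorem nearest_le (x : ℝ) (z : ℤ) : nearest x ≤ |x - z| := round_le x z

theorem nearest_zero : nearest 0 = 0 := by simp [nearest]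

theorem nearest_add_le (x y : ℝ) : nearest (x + y) ≤ nearest x + nearest y := by
  have h := nearest_le (x + y) (round x + round y)
  have h2 : x + y - ((round x + round y : ℤ) : ℝ) = (x - round x) + (y - round y) := by
    push_cast; ring
  rw [h2] at h
  exact h.trans (abs_add_le _ _)

theorem nearest_neg (x : ℝ) : nearest (-x) = nearest x := by
  have key : ∀ y : ℝ, nearest (-y) ≤ nearest y := by
    intro y
    have h := nearest_le (-y) (-round y)
    have h2 : -y - ((-round y : ℤ) : ℝ) = -(y - round y) := by push_cast; ring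
    rw [h2, abs_neg] at h
    exact h
  exact le_antisymm (key x) (by simpa using key (-x))

theorem nearest_nat_mul_le (k : ℕ) (x : ℝ) : nearest (k * x) ≤ k * nearest x := by
  have h := nearest_le ((k : ℝ) * x) ((k : ℤ) * round x)
  have h2 : (k : ℝ) * x - (((k : ℤ) * round x : ℤ) : ℝ) = k * (x - round x) := by
    push_cast; ring
  rw [h2, abs_mul, Nat.abs_cast] at h
  exact h

theorem nearest_add_int (x : ℝ) (z : ℤ) : nearest (x + z) = nearest x := by
  simp [nearest, round_add_intCast]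

theorem nearest_le_abs (x : ℝ) : nearest x ≤ |x| := by
  have h := nearest_le x 0
  simpa using h

theorem nearest_add_le_abs (x y : ℝ) : nearest (x + y) ≤ nearest x + |y| :=
  (nearest_add_le x y).trans (by linarith [nearest_le_abs y])

/-- A walk with positive steps `s ≤ ε` comes within `ε` of an integer within `1 / s` steps. -/
theorem walk {ε s : ℝ} (hs : 0 < s) (hsε : s ≤ ε) (β : ℝ) :
    ∃ k : ℕ, (k : ℝ) ≤ 1 / s ∧ nearest (k * s + β) ≤ ε := by
  have hf1 := Int.fract_lt_one β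
  have hf0 := Int.fract_nonneg β
  obtain ⟨u, hu⟩ : ∃ u : ℝ, u = 1 - Int.fract β := ⟨_, rfl⟩
  have hu0 : 0 ≤ u / s := div_nonneg (by linarith) hs.le
  have h1 : ((⌊u / s⌋₊ : ℕ) : ℝ) ≤ u / s := Nat.floor_le hu0
  have h2 : u / s < ((⌊u / s⌋₊ : ℕ) : ℝ) + 1 := Nat.lt_floor_add_one _
  refine ⟨⌊u / s⌋₊, h1.trans ?_, ?_⟩
  · exact div_le_div_of_nonneg_right (by linarith) hs.le
  · have h3 := nearest_le (((⌊u / s⌋₊ : ℕ) : ℝ) * s + β) (⌊β⌋ + 1)
    have h4 : ((⌊u / s⌋₊ : ℕ) : ℝ) * s ≤ u := by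
      have := mul_le_mul_of_nonneg_right h1 hs.le
      rwa [div_mul_cancel₀ _ hs.ne'] at this
    have h5 : u < ((⌊u / s⌋₊ : ℕ) : ℝ) * s + s := by
      have := mul_lt_mul_of_pos_right h2 hs
      rw [div_mul_cancel₀ _ hs.ne'] at this
      linarith
    refine h3.trans ?_
    have h6 : (β : ℝ) = ⌊β⌋ + Int.fract β := (Int.floor_add_fract β).symm
    rw [abs_le]
    push_cast
    constructor <;> linarith

/-- Either a small multiple of `α` is very close to an integer, or the multiples `y α`, with `y` in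
any interval of length `Q`, come close to everything. -/
theorem alternative {ε : ℝ} (hε : 0 < ε) : ∃ q₀ : ℕ, ∀ ρ : ℝ, 0 < ρ → ∃ Q : ℕ, ∀ α : ℝ,
    (∃ q : ℕ, 1 ≤ q ∧ q ≤ q₀ ∧ nearest (q * α) ≤ ρ) ∨
    (∀ β : ℝ, ∃ y : ℕ, y ≤ Q ∧ nearest (y * α + β) ≤ ε) := by
  refine ⟨⌈1 / ε⌉₊, fun ρ hρ => ⟨⌈1 / ρ⌉₊ * ⌈1 / ε⌉₊, fun α => ?_⟩⟩
  have hpos : 0 < ⌈1 / ε⌉₊ := Nat.ceil_pos.2 (by positivity)
  obtain ⟨q, hq0, hq1, hq2⟩ := Real.exists_nat_abs_mul_sub_round_le α hpos
  have h1 : (1 : ℝ) / ((⌈1 / ε⌉₊ : ℕ) + 1) ≤ ε := by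
    have h2 : 1 / ε ≤ ((⌈1 / ε⌉₊ : ℕ) : ℝ) := Nat.le_ceil _
    rw [div_le_iff₀ (by positivity)]
    rw [div_le_iff₀ hε] at h2
    nlinarith
  have hq3 := hq2.trans h1
  by_cases hc : nearest (q * α) ≤ ρ
  · exact Or.inl ⟨q, hq0, hq1, hc⟩
  · right
    intro β
    push Not at hc
    obtain ⟨s, hs⟩ : ∃ s : ℝ, s = q * α - round (q * α) := ⟨_, rfl⟩
    have hs1 : |s| ≤ ε := by rw [hs]; exact hq3
    have hs2 : ρ < |s| := by rw [hs]; exact hc
    have key : ∃ k : ℕ, (k : ℝ) ≤ 1 / |s| ∧ nearest (k * s + β) ≤ ε := by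
      rcases le_or_gt 0 s with h0 | h0
      · rw [abs_of_nonneg h0] at hs1 hs2 ⊢
        exact walk (by linarith) hs1 β
      · rw [abs_of_neg h0] at hs1 hs2 ⊢
        obtain ⟨k, hk1, hk2⟩ := walk (by linarith) hs1 (-β)
        refine ⟨k, hk1, ?_⟩
        rw [← nearest_neg]
        have : -((k : ℝ) * s + β) = k * -s + -β := by ring
        rw [this]
        exact hk2
    obtain ⟨k, hk1, hk2⟩ := key
    refine ⟨k * q, Nat.mul_le_mul ?_ hq1, ?_⟩
    · have h3 : (1 : ℝ) / |s| ≤ 1 / ρ := one_div_le_one_div_of_le hρ hs2.le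
      have h4 : ((k : ℕ) : ℝ) ≤ ((⌈1 / ρ⌉₊ : ℕ) : ℝ) := (hk1.trans h3).trans (Nat.le_ceil _)
      exact_mod_cast h4
    · have h5 : ((k * q : ℕ) : ℝ) * α + β = (k * s + β) + ((k * round (q * α) : ℤ) : ℝ) := by
        rw [hs]; push_cast; ring
      rw [h5, nearest_add_int]
      exact hk2

end Pool.Agent.W_0d5018_h9
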