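import Pool.Agent.W_0d5018_h9.Lac

/-!
# Enumerating a separated finite set by an infinite lacunary sequence of integers
-/

namespace Pool.Agent.W_0d5018_h9

theorem enumerate {M : ℝ} (hM : 0 < M) {S : Finset ℕ} (hS : Sep M S) (hne : S.Nonempty) :
    ∃ (N : ℕ) (t : ℕ → ℕ), IsLacunary M (fun j => (t j : ℝ)) ∧ ∀ s ∈ S, ∃ j, j ≤ N ∧ t j = s := by
  classical
  have hM1 : 0 < 1 / M := by positivity
  obtain ⟨W, hW⟩ : ∃ W : ℕ, W = ⌈1 + 1 / M⌉₊ + 1 := ⟨_, rfl⟩
  have hceil : 1 + 1 / M ≤ ((⌈1 + 1 / M⌉₊ : ℕ) : ℝ) := Nat.le_ceil _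
  have hW1 : 1 + 1 / M ≤ (W : ℝ) := by rw [hW]; push_cast; linarith
  have hW2 : 2 ≤ W := by
    have : 0 < ⌈1 + 1 / M⌉₊ := Nat.ceil_pos.2 (by positivity)
    omega
  obtain ⟨m, hm⟩ : ∃ m, m = S.max' hne := ⟨_, rfl⟩
  have hmS : m ∈ S := by rw [hm]; exact S.max'_mem hne
  have hmle : ∀ s ∈ S, s ≤ m := by intro s hs; rw [hm]; exact S.le_max' s hs
  have hm0 : 0 < m := hS.1 m hmS
  obtain ⟨p, hp⟩ : ∃ p : ℕ → Prop, ∀ a, p a ↔ (a ∈ S ∨ ∃ k, a = m * W ^ (k + 1)) :=
    ⟨_, fun _ => Iff.rfl⟩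
  have hinj : StrictMono fun k => m * W ^ (k + 1) := by
    apply strictMono_nat_of_lt_succ
    intro k
    have h1 : 0 < m * W ^ (k + 1) := by positivity
    calc m * W ^ (k + 1) < m * W ^ (k + 1) * W := by
          exact lt_mul_of_one_lt_right h1 (by omega)
      _ = m * W ^ (k + 1 + 1) := by ring
  have hinf : (Set.ofPred p).Infinite := by
    refine Set.infinite_of_injective_forall_mem hinj.injective (fun k => ?_)
    change p _
    rw [hp]
    exact Or.inr ⟨k, rfl⟩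
  have hpos : ∀ a, p a → 0 < a := by
    intro a ha
    rcases (hp a).1 ha with h | ⟨k, rfl⟩
    · exact hS.1 a h
    · positivity
  have hsep : ∀ a b, p a → p b → a < b → (1 + 1 / M) * (a : ℝ) ≤ b := by
    intro a b ha hb hab
    rcases (hp a).1 ha with ha | ⟨k, rfl⟩ <;> rcases (hp b).1 hb with hb | ⟨l, rfl⟩
    · exact hS.2 a ha b hb hab
    · have h1 : W * a ≤ m * W ^ (l + 1) := by
        calc W * a ≤ W * m := Nat.mul_le_mul_left W (hmle a ha)
          _ = m * W ^ 1 := by ring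
          _ ≤ m * W ^ (l + 1) := Nat.mul_le_mul_left m (Nat.pow_le_pow_right (by omega) (by omega))
      have h2 : (W : ℝ) * a ≤ ((m * W ^ (l + 1) : ℕ) : ℝ) := by exact_mod_cast h1
      exact (mul_le_mul_of_nonneg_right hW1 (Nat.cast_nonneg a)).trans h2
    · exfalso
      have h1 := hmle b hb
      have h2 : m * 1 ≤ m * W ^ (k + 1) := Nat.mul_le_mul_left m (Nat.one_le_pow _ _ (by omega))
      omega
    · have hkl : k < l := hinj.lt_iff_lt.1 hab
      have h1 : W * (m * W ^ (k + 1)) ≤ m * W ^ (l + 1) := by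
        calc W * (m * W ^ (k + 1)) = m * W ^ (k + 1 + 1) := by ring
          _ ≤ m * W ^ (l + 1) := Nat.mul_le_mul_left m (Nat.pow_le_pow_right (by omega) (by omega))
      have h2 : (W : ℝ) * ((m * W ^ (k + 1) : ℕ) : ℝ) ≤ ((m * W ^ (l + 1) : ℕ) : ℝ) := by
        exact_mod_cast h1
      exact (mul_le_mul_of_nonneg_right hW1 (Nat.cast_nonneg _)).trans h2
  refine ⟨S.sup (Nat.count p), Nat.nth p, ⟨?_, ?_⟩, ?_⟩
  · intro j
    have h1 := hpos _ (Nat.nth_mem_of_infinite hinf j)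
    change (0 : ℝ) < ((Nat.nth p j : ℕ) : ℝ)
    exact_mod_cast h1
  · intro j
    have h1 := Nat.nth_mem_of_infinite hinf j
    have h2 := Nat.nth_mem_of_infinite hinf (j + 1)
    have h3 := Nat.nth_strictMono hinf (Nat.lt_succ_self j)
    have h4 := hsep _ _ h1 h2 h3
    have h5 : (0 : ℝ) < (Nat.nth p j : ℕ) := by exact_mod_cast hpos _ h1
    rw [le_div_iff₀ h5]
    exact h4
  · intro s hs
    exact ⟨Nat.count p s, Finset.le_sup hs, Nat.nth_count ((hp s).2 (Or.inl hs))⟩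

/-- Shifted killing by a finite lacunary sequence gives unshifted killing by a finite part of an
infinite lacunary sequence of positive integers. -/
theorem exists_int {M : ℝ} (hM : 0 < M) {n : ℕ} {x η : ℕ → ℝ} (hx : IsLacunary M x) {δ : ℝ}
    (h : Kills n x η δ) {ε : ℝ} (hε : 0 < ε) :
    ∃ (N : ℕ) (t : ℕ → ℕ), IsLacunary M (fun j => (t j : ℝ)) ∧
      Kills N (fun j => (t j : ℝ)) (fun _ => 0) (δ + ε) := by
  obtain ⟨S, hS1, hS2⟩ := homogenize hM hx h hε
  have hne : S.Nonempty := by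
    obtain ⟨s, hs, _⟩ := hS2 0
    exact ⟨s, hs⟩
  obtain ⟨N, t, ht1, ht2⟩ := enumerate hM hS1 hne
  refine ⟨N, t, ht1, fun α => ?_⟩
  obtain ⟨s, hs, hs2⟩ := hS2 α
  obtain ⟨j, hj, rfl⟩ := ht2 s hs
  refine ⟨j, hj, ?_⟩
  simp only [sub_zero]
  rw [mul_comm]
  exact hs2

/-- Compactness: an infinite shifted sequence of integers that kills every `α` has a finite part
that does so up to `ε`. -/
theorem compact_int {t : ℕ → ℕ} {η : ℕ → ℝ} {δ : ℝ}
    (h : ∀ α : ℝ, ∃ j, nearest (α * t j - η j) < δ) :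
    ∃ N, Kills N (fun j => (t j : ℝ)) η δ := by
  obtain ⟨U, hU⟩ : ∃ U : ℕ → Set ℝ, ∀ j, U j = {α | nearest (α * t j - η j) < δ} :=
    ⟨_, fun _ => rfl⟩
  have hlip : ∀ x y : ℝ, nearest y ≤ nearest x + |y - x| := by
    intro x y
    have := nearest_add_le_abs x (y - x)
    rwa [add_sub_cancel] at this
  have hcont : Continuous nearest := by
    rw [Metric.continuous_iff]
    intro x e he
    refine ⟨e, he, fun y hy => ?_⟩
    rw [Real.dist_eq] at hy ⊢
    have h1 := hlip x y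
    have h2 := hlip y x
    rw [abs_sub_comm x y] at h2
    rw [abs_lt]
    constructor <;> linarith
  have hopen : ∀ j, IsOpen (U j) := by
    intro j
    rw [hU]
    exact isOpen_lt (hcont.comp (by fun_prop)) continuous_const
  obtain ⟨s, hs⟩ := isCompact_Icc.elim_finite_subcover (s := Set.Icc (0 : ℝ) 1) U hopen (by
    intro α _
    obtain ⟨j, hj⟩ := h α
    rw [Set.mem_iUnion]
    exact ⟨j, by rw [hU]; exact hj⟩)
  refine ⟨s.sup id, fun α => ?_⟩
  have h1 : Int.fract α ∈ Set.Icc (0 : ℝ) 1 := ⟨Int.fract_nonneg _, (Int.fract_lt_one _).le⟩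
  have h2 := hs h1
  simp only [Set.mem_iUnion] at h2
  obtain ⟨j, hj, hj2⟩ := h2
  rw [hU] at hj2
  refine ⟨j, Finset.le_sup (f := id) hj, ?_⟩
  have h3 : α * (t j : ℝ) - η j = (Int.fract α * t j - η j) + ((⌊α⌋ * t j : ℤ) : ℝ) := by
    have h4 : α = ⌊α⌋ + Int.fract α := (Int.floor_add_fract α).symm
    push_cast
    linear_combination (t j : ℝ) * h4
  change nearest (α * (t j : ℝ) - η j) ≤ δ
  rw [h3, nearest_add_int]
  exact (le_of_lt hj2)

end Pool.Agent.W_0d5018_h9
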