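import Pool.Agent.W_0d5018_h9.Universal

/-!
# From shifted lacunary sequences to unshifted ones
-/

namespace Pool.Agent.W_0d5018_h9

/-- `t` is an `M`-lacunary sequence of positive reals. -/
def IsLacunary (M : ℝ) (t : ℕ → ℝ) : Prop :=
  (∀ j, 0 < t j) ∧ ∀ j, 1 + 1 / M ≤ t (j + 1) / t j

/-- Every real `α` makes one of the first `n + 1` shifted products `δ`-close to an integer. -/
def Kills (n : ℕ) (t η : ℕ → ℝ) (δ : ℝ) : Prop :=
  ∀ α : ℝ, ∃ j, j ≤ n ∧ nearest (α * t j - η j) ≤ δ

/-- Simultaneous approximation. -/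
theorem simul (n : ℕ) (x : ℕ → ℝ) : ∀ κ : ℝ, 0 < κ →
    ∃ P : ℕ, 0 < P ∧ ∀ j, j < n → nearest (P * x j) ≤ κ := by
  induction n with
  | zero => intro κ hκ; exact ⟨1, one_pos, by intro j hj; omega⟩
  | succ n ih =>
    intro κ hκ
    have hpos : 0 < ⌈1 / κ⌉₊ := Nat.ceil_pos.2 (by positivity)
    obtain ⟨P, hP, hP2⟩ := ih (κ / (⌈1 / κ⌉₊ : ℕ)) (by positivity)
    obtain ⟨q, hq0, hq1, hq2⟩ := Real.exists_nat_abs_mul_sub_round_le (P * x n) hpos
    have h1 : (1 : ℝ) / ((⌈1 / κ⌉₊ : ℕ) + 1) ≤ κ := by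
      have h2 : 1 / κ ≤ ((⌈1 / κ⌉₊ : ℕ) : ℝ) := Nat.le_ceil _
      rw [div_le_iff₀ (by positivity)]
      rw [div_le_iff₀ hκ] at h2
      nlinarith
    refine ⟨q * P, by positivity, fun j hj => ?_⟩
    have h2 : ((q * P : ℕ) : ℝ) * x j = q * (P * x j) := by push_cast; ring
    rw [h2]
    rcases Nat.lt_or_ge j n with h3 | h3
    · refine (nearest_nat_mul_le _ _).trans ?_
      have h4 := hP2 j h3
      have h5 : (q : ℝ) ≤ (⌈1 / κ⌉₊ : ℕ) := by exact_mod_cast hq1
      calc (q : ℝ) * nearest (P * x j) ≤ (⌈1 / κ⌉₊ : ℕ) * (κ / (⌈1 / κ⌉₊ : ℕ)) :=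
            mul_le_mul h5 h4 (nearest_nonneg _) (by positivity)
        _ = κ := mul_div_cancel₀ _ (by positivity)
    · have : j = n := by omega
      subst this
      exact hq2.trans h1

/-- Distinct elements have ratio at least `1 + 1 / M`. -/
def Sep (M : ℝ) (S : Finset ℕ) : Prop :=
  (∀ a ∈ S, 0 < a) ∧ ∀ a ∈ S, ∀ b ∈ S, a < b → (1 + 1 / M) * (a : ℝ) ≤ b

theorem sepr {M : ℝ} {W : ℕ} (hW : 2 ≤ W) (hWM : 1 + 1 / M ≤ W) : Sepr W (Sep M) where
  two_le := hW
  empty := by simp [Sep]
  single := by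
    intro a ha
    refine ⟨by simpa using ha, ?_⟩
    intro b hb c hc hbc
    rw [Finset.mem_singleton] at hb hc
    omega
  union := by
    intro S B hS hB h
    have hB0 : ∀ a ∈ S, ∀ b ∈ B, (1 + 1 / M) * (a : ℝ) ≤ b := by
      intro a ha b hb
      have h1 : ((W * a : ℕ) : ℝ) ≤ b := by exact_mod_cast h a ha b hb
      push_cast at h1
      exact (mul_le_mul_of_nonneg_right hWM (Nat.cast_nonneg a)).trans h1
    refine ⟨?_, ?_⟩
    · intro a ha
      rcases Finset.mem_union.1 ha with ha | ha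
      · exact hS.1 a ha
      · exact hB.1 a ha
    · intro a ha b hb hab
      rcases Finset.mem_union.1 ha with ha | ha <;> rcases Finset.mem_union.1 hb with hb | hb
      · exact hS.2 a ha b hb hab
      · exact hB0 a ha b hb
      · have h1 := h b hb a ha
        have h2 : 1 * b ≤ W * b := Nat.mul_le_mul_right b (by omega)
        omega
      · exact hB.2 a ha b hb hab

/-- A finite sequence with ratios at least `1 + 1 / M` has a separated image. -/
theorem sep_image {M : ℝ} (hM : 0 < M) (n : ℕ) (b : ℕ → ℕ) (h0 : ∀ j, j ≤ n → 0 < b j)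
    (h : ∀ j, j < n → (1 + 1 / M) * (b j : ℝ) ≤ b (j + 1)) :
    Sep M ((Finset.range (n + 1)).image b) := by
  have hM1 : 0 < 1 / M := by positivity
  have hmono : ∀ d i, i + d ≤ n → (b i : ℝ) ≤ b (i + d) := by
    intro d
    induction d with
    | zero => intro i _; simp
    | succ d ih =>
      intro i hi
      have h1 := ih i (by omega)
      have h2 := h (i + d) (by omega)
      have h3 : (0 : ℝ) ≤ b (i + d) := Nat.cast_nonneg _
      have h4 : i + (d + 1) = i + d + 1 := by omega
      rw [h4]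
      nlinarith
  refine ⟨?_, ?_⟩
  · intro a ha
    obtain ⟨j, hj, rfl⟩ := Finset.mem_image.1 ha
    exact h0 j (by have := Finset.mem_range.1 hj; omega)
  · intro a ha c hc hac
    obtain ⟨i, hi, rfl⟩ := Finset.mem_image.1 ha
    obtain ⟨j, hj, rfl⟩ := Finset.mem_image.1 hc
    rw [Finset.mem_range] at hi hj
    have hij : i < j := by
      by_contra hcon
      have h1 := hmono (i - j) j (by omega)
      have h2 : j + (i - j) = i := by omega
      rw [h2] at h1
      have h3 : b j ≤ b i := by exact_mod_cast h1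
      omega
    have h1 := h i (by omega)
    have h2 := hmono (j - (i + 1)) (i + 1) (by omega)
    have h3 : i + 1 + (j - (i + 1)) = j := by omega
    rw [h3] at h2
    exact h1.trans h2

/-- Offsets. -/
def off (W Q : ℕ) : ℕ → ℕ
  | 0 => 0
  | j + 1 => W * (off W Q j + Q + 1)

/-- Shifted killing by a finite lacunary sequence gives unshifted killing by a separated finite set
of positive integers. -/
theorem homogenize {M : ℝ} (hM : 0 < M) {n : ℕ} {x η : ℕ → ℝ} (hx : IsLacunary M x) {δ : ℝ}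
    (h : Kills n x η δ) {ε : ℝ} (hε : 0 < ε) :
    ∃ S : Finset ℕ, Sep M S ∧ ∀ α : ℝ, ∃ s ∈ S, nearest (s * α) ≤ δ + ε := by
  have hδ : 0 ≤ δ := by
    obtain ⟨j, _, hj⟩ := h 0
    exact (nearest_nonneg _).trans hj
  obtain ⟨W, hW⟩ : ∃ W : ℕ, W = ⌈1 + 1 / M⌉₊ + 1 := ⟨_, rfl⟩
  have hM1 : 0 < 1 / M := by positivity
  have hceil : 1 + 1 / M ≤ ((⌈1 + 1 / M⌉₊ : ℕ) : ℝ) := Nat.le_ceil _
  have hW1 : 1 + 1 / M ≤ (W : ℝ) := by rw [hW]; push_cast; linarith
  have hW2 : 2 ≤ W := by
    have : 0 < ⌈1 + 1 / M⌉₊ := Nat.ceil_pos.2 (by positivity)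
    omega
  obtain ⟨S, hS1, -, hS3⟩ := universal (sepr hW2 hW1) (J := Fin (n + 1)) (fun j => η j)
    (ε := ε / 2) (c := δ + ε) (by positivity) (by linarith) (by
      intro Q
      refine ⟨fun j => off W Q j, fun y hy L => ?_⟩
      obtain ⟨A, hA⟩ : ∃ A : ℕ, A = L + 1 := ⟨_, rfl⟩
      obtain ⟨κ, hκ⟩ : ∃ κ : ℝ, κ = min (x 0 / 2) (min (ε / 2) (1 / ((2 + 1 / M) * A))) := ⟨_, rfl⟩
      have hx0 := hx.1 0
      have hA0 : (0 : ℝ) < A := by rw [hA]; push_cast; positivity
      have hκ0 : 0 < κ := by rw [hκ]; positivity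
      have hκ1 : κ ≤ x 0 / 2 := by rw [hκ]; exact min_le_left _ _
      have hκ2 : κ ≤ ε / 2 := by
        rw [hκ]; exact (min_le_right _ _).trans (min_le_left _ _)
      have hκ3 : κ * ((2 + 1 / M) * A) ≤ 1 := by
        have h1 : κ ≤ 1 / ((2 + 1 / M) * A) := by
          rw [hκ]; exact (min_le_right _ _).trans (min_le_right _ _)
        rwa [le_div_iff₀ (by positivity)] at h1
      obtain ⟨P, hP0, hP⟩ := simul (n + 1) x κ hκ0
      have hratio : ∀ j, (1 + 1 / M) * x j ≤ x (j + 1) := by
        intro j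
        have := hx.2 j
        rwa [le_div_iff₀ (hx.1 j)] at this
      have hxj : ∀ j, x 0 ≤ x j := by
        intro j
        induction j with
        | zero => exact le_refl _
        | succ j ih =>
          have h1 := hratio j
          have h2 := hx.1 j
          nlinarith
      have hP1 : (1 : ℝ) ≤ P := by exact_mod_cast hP0
      -- the integers close to `P x j`
      obtain ⟨m, hm⟩ : ∃ m : ℕ → ℕ, ∀ j, m j = (round (P * x j)).toNat := ⟨_, fun _ => rfl⟩
      have hmj : ∀ j, j < n + 1 → |(m j : ℝ) - P * x j| ≤ κ := by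
        intro j hj
        have h1 := hP j hj
        rw [nearest, abs_sub_comm] at h1
        have h2 : (0 : ℝ) < round (P * x j) := by
          have h3 := (abs_le.1 h1).1
          have h4 := hxj j
          nlinarith
        have h3 : (0 : ℤ) ≤ round (P * x j) := by exact_mod_cast h2.le
        have h4 : ((m j : ℕ) : ℝ) = ((round (P * x j) : ℤ) : ℝ) := by
          rw [hm]
          exact_mod_cast Int.toNat_of_nonneg h3
        rw [h4]
        exact h1
      have hm0 : ∀ j, j < n + 1 → 0 < m j := by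
        intro j hj
        have h1 := (abs_le.1 (hmj j hj)).1
        have h2 := hxj j
        have h3 : (0 : ℝ) < m j := by nlinarith
        exact_mod_cast h3
      -- extended digits
      obtain ⟨z, hz⟩ : ∃ z : ℕ → ℕ, ∀ j, z j = if hj : j < n + 1 then y ⟨j, hj⟩ else 0 :=
        ⟨_, fun _ => rfl⟩
      have hzQ : ∀ j, z j ≤ Q := by
        intro j
        rw [hz]
        split_ifs with hj
        · exact hy _
        · exact Nat.zero_le _
      obtain ⟨b, hb⟩ : ∃ b : ℕ → ℕ, ∀ j, b j = m j * A + off W Q j + z j := ⟨_, fun _ => rfl⟩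
      refine ⟨(Finset.range (n + 1)).image b, sep_image hM n b ?_ ?_, ?_, ?_⟩
      · intro j hj
        have h1 := hm0 j (by omega)
        have h2 : 0 < m j * A := Nat.mul_pos h1 (by omega)
        rw [hb]; omega
      · intro j hj
        have h1 := (abs_le.1 (hmj j (by omega))).2
        have h2 := (abs_le.1 (hmj (j + 1) (by omega))).1
        have h3 := hratio j
        have h4 : off W Q (j + 1) = W * (off W Q j + Q + 1) := rfl
        have h5 : (z j : ℝ) ≤ Q := by exact_mod_cast hzQ j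
        have h6 : (0 : ℝ) ≤ z (j + 1) := Nat.cast_nonneg _
        rw [hb, hb, h4]
        push_cast
        have h7 : (1 + 1 / M) * ((off W Q j : ℝ) + z j) + 1 ≤ W * (off W Q j + Q + 1) := by
          have h8 : (1 + 1 / M) * ((off W Q j : ℝ) + z j) ≤ W * (off W Q j + Q) := by
            apply mul_le_mul hW1 (by linarith) (by positivity) (by positivity)
          have h9 : (1 : ℝ) ≤ W := by linarith
          nlinarith
        have h10 : (1 + 1 / M) * ((m j : ℝ) * A) ≤ m (j + 1) * A + 1 := by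
          have h11 : (1 + 1 / M) * (m j : ℝ) ≤ m (j + 1) + (2 + 1 / M) * κ := by
            have h12 : (1 + 1 / M) * (m j : ℝ) ≤ (1 + 1 / M) * (P * x j + κ) :=
              mul_le_mul_of_nonneg_left (by linarith) (by positivity)
            have h13 : (P : ℝ) * ((1 + 1 / M) * x j) ≤ P * x (j + 1) :=
              mul_le_mul_of_nonneg_left h3 (by positivity)
            nlinarith
          have h14 := mul_le_mul_of_nonneg_right h11 hA0.le
          nlinarith
        nlinarith
      · intro b' hb'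
        obtain ⟨j, hj, rfl⟩ := Finset.mem_image.1 hb'
        have h1 := hm0 j (Finset.mem_range.1 hj)
        have h2 : 1 * A ≤ m j * A := Nat.mul_le_mul_right A h1
        rw [hb]; omega
      · intro α hα
        obtain ⟨θ, hθ⟩ : ∃ θ : ℝ, θ = Int.fract (A * α) := ⟨_, rfl⟩
        obtain ⟨j, hj, hj2⟩ := h (θ * P)
        refine ⟨b j, Finset.mem_image_of_mem b (Finset.mem_range.2 (by omega)), ?_⟩
        have h1 := hα ⟨j, by omega⟩
        have h2 : z j = y ⟨j, by omega⟩ := by
          rw [hz, dif_pos (by omega)]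
        have h3 : ((b j : ℕ) : ℝ) * α = (θ * P * x j - η j) + θ * ((m j : ℝ) - P * x j)
            + (((off W Q j + y ⟨j, by omega⟩ : ℕ) : ℝ) * α + η j) + ((m j * ⌊A * α⌋ : ℤ) : ℝ) := by
          have h4 : (A : ℝ) * α = ⌊A * α⌋ + θ := by rw [hθ]; exact (Int.floor_add_fract _).symm
          rw [hb, h2]
          push_cast
          linear_combination (m j : ℝ) * h4
        rw [h3, nearest_add_int]
        refine (nearest_add_le _ _).trans ?_
        refine (add_le_add_left (nearest_add_le_abs _ _) _).trans ?_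
        have h5 : |θ * ((m j : ℝ) - P * x j)| ≤ ε / 2 := by
          rw [abs_mul]
          have h6 := hmj j (by omega)
          have h7 : |θ| ≤ 1 := by
            rw [hθ, abs_of_nonneg (Int.fract_nonneg _)]
            exact (Int.fract_lt_one _).le
          calc |θ| * |(m j : ℝ) - P * x j| ≤ 1 * κ :=
                mul_le_mul h7 h6 (abs_nonneg _) zero_le_one
            _ ≤ ε / 2 := by linarith
        linarith)
  exact ⟨S, hS1, hS3⟩

end Pool.Agent.W_0d5018_h9
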