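import Pool.Agent.W_0d5018_h9.Octave

/-!
# Enumerating a finite set with few elements per octave
-/

namespace Pool.Agent.W_0d5018_h9

theorem oct_enumerate {N : ℕ} (hN : 1 ≤ N) {S : Finset ℕ} (hS : Oct N S) (hne : S.Nonempty) :
    ∃ t : ℕ → ℕ, (∀ j, 0 < t j) ∧ StrictMono t ∧ (∀ j, 2 * t j ≤ t (j + N)) ∧
      ∀ s ∈ S, ∃ j, t j = s := by
  classical
  obtain ⟨m, hm⟩ : ∃ m, m = S.max' hne := ⟨_, rfl⟩
  have hmS : m ∈ S := by rw [hm]; exact S.max'_mem hne
  have hmle : ∀ s ∈ S, s ≤ m := by intro s hs; rw [hm]; exact S.le_max' s hs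
  have hm0 : 0 < m := hS.1 m hmS
  obtain ⟨p, hp⟩ : ∃ p : ℕ → Prop, ∀ a, p a ↔ (a ∈ S ∨ ∃ k, a = m * 2 ^ (k + 1)) :=
    ⟨_, fun _ => Iff.rfl⟩
  have hinj : StrictMono fun k => m * 2 ^ (k + 1) := by
    apply strictMono_nat_of_lt_succ
    intro k
    have h1 : 0 < m * 2 ^ (k + 1) := by positivity
    have h2 : m * 2 ^ (k + 1 + 1) = 2 * (m * 2 ^ (k + 1)) := by ring
    change m * 2 ^ (k + 1) < m * 2 ^ (k + 1 + 1)
    omega
  have hge : ∀ k, 2 * m ≤ m * 2 ^ (k + 1) := by
    intro k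
    calc 2 * m = m * 2 ^ 1 := by ring
      _ ≤ m * 2 ^ (k + 1) := Nat.mul_le_mul_left m (Nat.pow_le_pow_right (by norm_num) (by omega))
  have hinf : (Set.ofPred p).Infinite := by
    refine Set.infinite_of_injective_forall_mem hinj.injective (fun k => ?_)
    change p _
    rw [hp]
    exact Or.inr ⟨k, rfl⟩
  have hpos : ∀ a, p a → 0 < a := by
    intro a ha
    rcases (hp a).1 ha with h | ⟨k, rfl⟩
    · exact hS.1 a h
    · positivity
  have hmono := Nat.nth_strictMono hinf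
  refine ⟨Nat.nth p, fun j => hpos _ (Nat.nth_mem_of_infinite hinf j), hmono, ?_, ?_⟩
  · intro j
    have h1 := Nat.nth_mem_of_infinite hinf j
    have h2 := Nat.nth_mem_of_infinite hinf (j + N)
    have h3 : Nat.nth p j < Nat.nth p (j + N) := hmono (by omega)
    rcases (hp _).1 h2 with hb | ⟨l, hl⟩
    · -- everything up to this element lies in `S`
      by_contra hcon
      rw [not_le] at hcon
      have h4 : (Finset.Icc j (j + N)).image (Nat.nth p) ⊆
          S.filter (fun t => Nat.nth p j ≤ t ∧ t < 2 * Nat.nth p j) := by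
        intro a ha
        obtain ⟨i, hi, rfl⟩ := Finset.mem_image.1 ha
        rw [Finset.mem_Icc] at hi
        have h5 := hmono.monotone hi.1
        have h6 := hmono.monotone hi.2
        have h7 := hmle _ hb
        refine Finset.mem_filter.2 ⟨?_, h5, by omega⟩
        rcases (hp _).1 (Nat.nth_mem_of_infinite hinf i) with h8 | ⟨k, hk⟩
        · exact h8
        · exfalso
          have := hge k
          omega
      have h5 := Finset.card_le_card h4
      rw [Finset.card_image_of_injective _ hmono.injective, Nat.card_Icc] at h5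
      have h6 := hS.2 (Nat.nth p j)
      omega
    · rcases (hp _).1 h1 with ha | ⟨k, hk⟩
      · have h4 := hmle _ ha
        have h5 := hge l
        omega
      · rw [hl, hk] at h3 ⊢
        have hkl : k < l := hinj.lt_iff_lt.1 h3
        calc 2 * (m * 2 ^ (k + 1)) = m * 2 ^ (k + 1 + 1) := by ring
          _ ≤ m * 2 ^ (l + 1) :=
            Nat.mul_le_mul_left m (Nat.pow_le_pow_right (by norm_num) (by omega))
  · intro s hs
    exact ⟨Nat.count p s, Nat.nth_count ((hp s).2 (Or.inl hs))⟩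

/-- An infinite sequence of positive integers with at most `2 ^ K` terms in every octave. -/
theorem octave_seq {K : ℕ} (hK : 1 ≤ K) {ε : ℝ} (hε : 0 < ε) :
    ∃ t : ℕ → ℕ, (∀ j, 0 < t j) ∧ StrictMono t ∧ (∀ j, 2 * t j ≤ t (j + 2 ^ K)) ∧
      ∀ α : ℝ, ∃ j, nearest (α * t j) ≤ 1 / (2 * K * 2 ^ K) + ε := by
  obtain ⟨S, hS1, hS2⟩ := octave_set hK hε
  have hne : S.Nonempty := by
    obtain ⟨s, hs, _⟩ := hS2 0
    exact ⟨s, hs⟩
  obtain ⟨t, h1, h2, h3, h4⟩ := oct_enumerate Nat.one_le_two_pow hS1 hne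
  refine ⟨t, h1, h2, h3, fun α => ?_⟩
  obtain ⟨s, hs, hs2⟩ := hS2 α
  obtain ⟨j, rfl⟩ := h4 s hs
  exact ⟨j, by rw [mul_comm]; exact hs2⟩

end Pool.Agent.W_0d5018_h9
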