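import Pool.Agent.W_0d5018_h9.Lac

/-!
# At most `N` terms in every octave
-/

namespace Pool.Agent.W_0d5018_h9

/-- A finite set of positive integers with at most `N` elements in every `[X, 2 X)`. -/
def Oct (N : ℕ) (S : Finset ℕ) : Prop :=
  (∀ a ∈ S, 0 < a) ∧ ∀ X : ℕ, (S.filter fun t => X ≤ t ∧ t < 2 * X).card ≤ N

theorem oct_sepr {N : ℕ} (hN : 1 ≤ N) : Sepr 2 (Oct N) where
  two_le := le_refl _
  empty := by simp [Oct]
  single := by
    intro a ha
    refine ⟨by simpa using ha, fun X => ?_⟩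
    exact (Finset.card_filter_le _ _).trans (by simpa using hN)
  union := by
    intro S B hS hB h
    refine ⟨?_, ?_⟩
    · intro a ha
      rcases Finset.mem_union.1 ha with ha | ha
      · exact hS.1 a ha
      · exact hB.1 a ha
    · intro X
      rw [Finset.filter_union]
      by_cases hne : (S.filter fun t => X ≤ t ∧ t < 2 * X).Nonempty
      · obtain ⟨a, ha⟩ := hne
        rw [Finset.mem_filter] at ha
        have h1 : (B.filter fun t => X ≤ t ∧ t < 2 * X) = ∅ := by
          rw [Finset.filter_eq_empty_iff]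
          intro b hb hb2
          have h2 := h a ha.1 b hb
          omega
        rw [h1, Finset.union_empty]
        exact hS.2 X
      · rw [Finset.not_nonempty_iff_eq_empty] at hne
        rw [hne, Finset.empty_union]
        exact hB.2 X

/-- The image of a sequence that doubles after `N` steps. -/
theorem oct_image {N n : ℕ} (b : ℕ → ℕ) (h0 : ∀ j, 0 < b j) (hmono : StrictMono b)
    (h : ∀ j, 2 * b j ≤ b (j + N)) : Oct N ((Finset.range n).image b) := by
  classical
  refine ⟨?_, ?_⟩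
  · intro a ha
    obtain ⟨j, -, rfl⟩ := Finset.mem_image.1 ha
    exact h0 j
  · intro X
    by_cases hex : ∃ j, X ≤ b j
    · have h1 := Nat.find_spec hex
      have h2 : ((Finset.range n).image b).filter (fun t => X ≤ t ∧ t < 2 * X) ⊆
          (Finset.Ico (Nat.find hex) (Nat.find hex + N)).image b := by
        intro t ht
        rw [Finset.mem_filter] at ht
        obtain ⟨ht1, ht2, ht3⟩ := ht
        obtain ⟨j, -, rfl⟩ := Finset.mem_image.1 ht1
        refine Finset.mem_image_of_mem b (Finset.mem_Ico.2 ⟨Nat.find_min' hex ht2, ?_⟩)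
        by_contra hcon
        have h3 := hmono.monotone (not_lt.1 hcon)
        have h4 := h (Nat.find hex)
        omega
      refine (Finset.card_le_card h2).trans (Finset.card_image_le.trans ?_)
      simp
    · push Not at hex
      have h1 : ((Finset.range n).image b).filter (fun t => X ≤ t ∧ t < 2 * X) = ∅ := by
        rw [Finset.filter_eq_empty_iff]
        intro t ht ht2
        obtain ⟨j, -, rfl⟩ := Finset.mem_image.1 ht
        have := hex j
        omega
      rw [h1]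
      simp

/-- The residue used at level `i` by the phase `m`. -/
def res (K i m : ℕ) : ℕ := K * (2 ^ i * (m / 2 ^ i)) + 2 ^ i * i + m % 2 ^ i

/-- The phases. -/
noncomputable def phase (K i m : ℕ) : ℝ := ((res K i m : ℝ) + 1 / 2) / (K * 2 ^ K)

/-- The inhomogeneous code: `2 ^ K` phases at each of the frequencies `2 ^ i`, `i < K`, catch every
real number within `1 / (2 K 2 ^ K)`. -/
theorem code {K : ℕ} (hK : 1 ≤ K) (θ : ℝ) :
    ∃ i m : ℕ, i < K ∧ m < 2 ^ K ∧ nearest (2 ^ i * θ - phase K i m) ≤ 1 / (2 * K * 2 ^ K) := by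
  obtain ⟨u, hu⟩ : ∃ u : ℝ, u = K * 2 ^ K * θ := ⟨_, rfl⟩
  obtain ⟨f, hf⟩ : ∃ f : ℤ, f = ⌊u⌋ := ⟨_, rfl⟩
  have hK0 : (0 : ℤ) < K := by exact_mod_cast hK
  obtain ⟨i, hi⟩ : ∃ i : ℕ, (i : ℤ) = f % K :=
    ⟨(f % K).toNat, Int.toNat_of_nonneg (Int.emod_nonneg _ hK0.ne')⟩
  have hiK : i < K := by
    have := Int.emod_lt_of_pos f hK0
    rw [← hi] at this
    exact_mod_cast this
  obtain ⟨a, ha⟩ : ∃ a : ℤ, a = f / K := ⟨_, rfl⟩
  have hfa : f = K * a + i := by rw [hi, ha]; exact (Int.mul_ediv_add_emod f K).symm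
  have hp0 : (0 : ℤ) < 2 ^ (K - i) := by positivity
  obtain ⟨a', ha'⟩ : ∃ a' : ℕ, (a' : ℤ) = a % 2 ^ (K - i) :=
    ⟨(a % 2 ^ (K - i)).toNat, Int.toNat_of_nonneg (Int.emod_nonneg _ hp0.ne')⟩
  have ha'lt : a' < 2 ^ (K - i) := by
    have := Int.emod_lt_of_pos a hp0
    rw [← ha'] at this
    exact_mod_cast this
  obtain ⟨z, hz⟩ : ∃ z : ℤ, z = a / 2 ^ (K - i) := ⟨_, rfl⟩
  have haz : a = 2 ^ (K - i) * z + a' := by rw [ha', hz]; exact (Int.mul_ediv_add_emod a _).symm
  -- the finer digits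
  have hf1 : (f : ℝ) ≤ u := by rw [hf]; exact Int.floor_le u
  have hf2 : u < f + 1 := by rw [hf]; exact Int.lt_floor_add_one u
  have hlow : 2 ^ i * f ≤ ⌊(2 : ℝ) ^ i * u⌋ := by
    rw [Int.le_floor]
    push_cast
    exact mul_le_mul_of_nonneg_left hf1 (by positivity)
  have hupp : ⌊(2 : ℝ) ^ i * u⌋ < 2 ^ i * f + 2 ^ i := by
    rw [Int.floor_lt]
    push_cast
    have : (2 : ℝ) ^ i * u < 2 ^ i * (f + 1) := mul_lt_mul_of_pos_left hf2 (by positivity)
    linarith
  obtain ⟨h, hh⟩ : ∃ h : ℕ, (h : ℤ) = ⌊(2 : ℝ) ^ i * u⌋ - 2 ^ i * f :=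
    ⟨(⌊(2 : ℝ) ^ i * u⌋ - 2 ^ i * f).toNat, Int.toNat_of_nonneg (by linarith)⟩
  have hhlt : h < 2 ^ i := by
    have : (h : ℤ) < 2 ^ i := by rw [hh]; linarith
    exact_mod_cast this
  refine ⟨i, 2 ^ i * a' + h, hiK, ?_, ?_⟩
  · have h1 : 2 ^ K = 2 ^ i * 2 ^ (K - i) := by rw [← pow_add]; congr 1; omega
    have h2 : 2 ^ i * (a' + 1) ≤ 2 ^ i * 2 ^ (K - i) := Nat.mul_le_mul_left _ ha'lt
    rw [h1]
    rw [mul_add] at h2
    omega
  · have hdiv : (2 ^ i * a' + h) / 2 ^ i = a' := by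
      rw [Nat.mul_add_div (by positivity), Nat.div_eq_of_lt hhlt, add_zero]
    have hmod : (2 ^ i * a' + h) % 2 ^ i = h := by
      rw [Nat.mul_add_mod, Nat.mod_eq_of_lt hhlt]
    have hres : ((res K i (2 ^ i * a' + h) : ℕ) : ℤ) + K * 2 ^ K * z = ⌊(2 : ℝ) ^ i * u⌋ := by
      rw [res, hdiv, hmod]
      have h1 : (2 : ℤ) ^ K = 2 ^ i * 2 ^ (K - i) := by rw [← pow_add]; congr 1; omega
      push_cast
      rw [h1, hh, hfa, haz]
      ring
    have hresR : ((res K i (2 ^ i * a' + h) : ℕ) : ℝ) + K * 2 ^ K * z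
        = ((⌊(2 : ℝ) ^ i * u⌋ : ℤ) : ℝ) := by exact_mod_cast hres
    have h1 := Int.floor_le ((2 : ℝ) ^ i * u)
    have h2 := Int.lt_floor_add_one ((2 : ℝ) ^ i * u)
    rw [← hresR] at h1 h2
    have hKr : (0 : ℝ) < K := by exact_mod_cast hK
    have h3 := nearest_le (2 ^ i * θ - phase K i (2 ^ i * a' + h)) z
    refine h3.trans ?_
    have h4 : (2 : ℝ) ^ i * θ - phase K i (2 ^ i * a' + h) - z
        = (2 ^ i * u - (((res K i (2 ^ i * a' + h) : ℕ) : ℝ) + K * 2 ^ K * z) - 1 / 2)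
          / (K * 2 ^ K) := by
      rw [phase, hu]
      field_simp
      ring
    rw [h4, abs_div, abs_of_pos (show (0 : ℝ) < K * 2 ^ K by positivity)]
    rw [div_le_div_iff₀ (by positivity) (by positivity)]
    have h5 : |(2 : ℝ) ^ i * u - (((res K i (2 ^ i * a' + h) : ℕ) : ℝ) + K * 2 ^ K * z) - 1 / 2|
        ≤ 1 / 2 := by
      rw [abs_le]; constructor <;> linarith
    calc _ ≤ (1 / 2 : ℝ) * (2 * K * 2 ^ K) := mul_le_mul_of_nonneg_right h5 (by positivity)
      _ = 1 * (K * 2 ^ K) := by ring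

/-- A finite set of positive integers with at most `2 ^ K` elements in every octave that brings
every `α` within `(1 / (2 K 2 ^ K)) + ε` of an integer. -/
theorem octave_set {K : ℕ} (hK : 1 ≤ K) {ε : ℝ} (hε : 0 < ε) :
    ∃ S : Finset ℕ, Oct (2 ^ K) S ∧ ∀ α : ℝ, ∃ s ∈ S, nearest (s * α) ≤ 1 / (2 * K * 2 ^ K) + ε := by
  classical
  obtain ⟨N, hN⟩ : ∃ N : ℕ, N = 2 ^ K := ⟨_, rfl⟩
  have hN0 : 0 < N := by rw [hN]; positivity
  have hδ : (0 : ℝ) ≤ 1 / (2 * K * 2 ^ K) := by positivity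
  rw [← hN]
  obtain ⟨S, hS1, -, hS3⟩ := universal (oct_sepr (N := N) hN0) (J := Fin (K * N))
    (fun j => phase K (j / N) (j % N)) (ε := ε) (c := 1 / (2 * K * 2 ^ K) + ε) hε (by linarith) (by
      intro Q
      refine ⟨fun j => off 2 Q j, fun y hy L => ?_⟩
      obtain ⟨A, hA⟩ : ∃ A : ℕ, A = L + 1 := ⟨_, rfl⟩
      obtain ⟨z, hz⟩ : ∃ z : ℕ → ℕ, ∀ j, z j = if hj : j < K * N then y ⟨j, hj⟩ else 0 :=
        ⟨_, fun _ => rfl⟩
      have hzQ : ∀ j, z j ≤ Q := by
        intro j
        rw [hz]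
        split_ifs with hj
        · exact hy _
        · exact Nat.zero_le _
      have hoff : ∀ j, off 2 Q (j + 1) = 2 * (off 2 Q j + Q + 1) := fun _ => rfl
      have hoffmono : Monotone (off 2 Q) := by
        apply monotone_nat_of_le_succ
        intro j
        rw [hoff]; omega
      obtain ⟨b, hb⟩ : ∃ b : ℕ → ℕ, ∀ j, b j = 2 ^ (j / N) * A + off 2 Q j + z j :=
        ⟨_, fun _ => rfl⟩
      have hbA : ∀ j, L < b j := by
        intro j
        have h1 : 1 * A ≤ 2 ^ (j / N) * A := Nat.mul_le_mul_right A (Nat.one_le_two_pow)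
        rw [hb]; omega
      refine ⟨(Finset.range (K * N)).image b, oct_image b ?_ ?_ ?_, ?_, ?_⟩
      · intro j
        have := hbA j
        omega
      · apply strictMono_nat_of_lt_succ
        intro j
        have h1 : 2 ^ (j / N) * A ≤ 2 ^ ((j + 1) / N) * A :=
          Nat.mul_le_mul_right A (Nat.pow_le_pow_right (by norm_num)
            (Nat.div_le_div_right (by omega)))
        have h2 := hzQ j
        rw [hb, hb, hoff]
        omega
      · intro j
        have h1 : (j + N) / N = j / N + 1 := Nat.add_div_right j hN0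
        have h2 : off 2 Q (j + 1) ≤ off 2 Q (j + N) := hoffmono (by omega)
        have h3 := hzQ j
        rw [hoff] at h2
        rw [hb, hb, h1, pow_succ]
        have h4 : 2 ^ (j / N) * 2 * A = 2 * (2 ^ (j / N) * A) := by ring
        rw [h4]
        omega
      · intro b' hb'
        obtain ⟨j, -, rfl⟩ := Finset.mem_image.1 hb'
        exact hbA j
      · intro α hα
        obtain ⟨i, m, hi, hm, him⟩ := code hK (A * α)
        rw [← hN] at hm
        have hj : i * N + m < K * N := by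
          have : (i + 1) * N ≤ K * N := Nat.mul_le_mul_right N hi
          rw [add_mul] at this
          omega
        have hj1 : (i * N + m) / N = i := by
          rw [mul_comm, Nat.mul_add_div hN0, Nat.div_eq_of_lt hm, add_zero]
        have hj2 : (i * N + m) % N = m := by
          rw [mul_comm, Nat.mul_add_mod, Nat.mod_eq_of_lt hm]
        refine ⟨b (i * N + m), Finset.mem_image_of_mem b (Finset.mem_range.2 hj), ?_⟩
        have h1 := hα ⟨i * N + m, hj⟩
        simp only [hj1, hj2] at h1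
        have h2 : z (i * N + m) = y ⟨i * N + m, hj⟩ := by rw [hz, dif_pos hj]
        have h3 : ((b (i * N + m) : ℕ) : ℝ) * α = (2 ^ i * (A * α) - phase K i m)
            + (((off 2 Q (i * N + m) + y ⟨i * N + m, hj⟩ : ℕ) : ℝ) * α + phase K i m) := by
          rw [hb, hj1, h2]
          push_cast
          ring
        rw [h3]
        exact (nearest_add_le _ _).trans (add_le_add him h1))
  exact ⟨S, hS1, hS3⟩

end Pool.Agent.W_0d5018_h9
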