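import Pool.Agent.W_0d5018_h9.Basic

/-!
# Turning shifted frequencies into unshifted ones
-/

namespace Pool.Agent.W_0d5018_h9

/-- `Good` is a property of finite sets of positive integers that holds for singletons and passes
to unions of sets separated by a factor `W`. -/
structure Sepr (W : ℕ) (Good : Finset ℕ → Prop) : Prop where
  two_le : 2 ≤ W
  empty : Good ∅
  single : ∀ a, 0 < a → Good {a}
  union : ∀ S B, Good S → Good B → (∀ a ∈ S, ∀ b ∈ B, W * a ≤ b) → Good (S ∪ B)

variable {W : ℕ} {Good : Finset ℕ → Prop}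

/-- The base set `q W ^ q`, `1 ≤ q ≤ n`. -/
def base (W n : ℕ) : Finset ℕ := (Finset.Icc 1 n).image fun q => q * W ^ q

theorem mem_base {W n a : ℕ} : a ∈ base W n ↔ ∃ q, 1 ≤ q ∧ q ≤ n ∧ q * W ^ q = a := by
  simp [base, and_assoc]

theorem base_good (h : Sepr W Good) (n : ℕ) : Good (base W n) := by
  have hW : 0 < W := by have := h.two_le; omega
  induction n with
  | zero => simpa [base] using h.empty
  | succ n ih =>
    have h1 : base W (n + 1) = base W n ∪ {(n + 1) * W ^ (n + 1)} := by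
      ext a
      rw [Finset.mem_union, mem_base, mem_base, Finset.mem_singleton]
      constructor
      · rintro ⟨q, h1, h2, h3⟩
        rcases Nat.lt_or_ge q (n + 1) with h4 | h4
        · exact Or.inl ⟨q, h1, by omega, h3⟩
        · have : q = n + 1 := by omega
          subst this
          exact Or.inr h3.symm
      · rintro (⟨q, h1, h2, h3⟩ | h3)
        · exact ⟨q, h1, by omega, h3⟩
        · exact ⟨n + 1, by omega, le_refl _, h3.symm⟩
    rw [h1]
    refine h.union _ _ ih (h.single _ (by positivity)) ?_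
    intro a ha b hb
    rw [mem_base] at ha
    rw [Finset.mem_singleton] at hb
    obtain ⟨q, hq1, hq2, rfl⟩ := ha
    subst hb
    calc W * (q * W ^ q) = q * W ^ (q + 1) := by ring
      _ ≤ (n + 1) * W ^ (n + 1) :=
        Nat.mul_le_mul (by omega) (Nat.pow_le_pow_right hW (by omega))

/-- Finitely many requirements that can each be met arbitrarily far out can be met together. -/
theorem combine (h : Sepr W Good) {ι : Type*} (c : ℝ) (G : ι → Set ℝ) (s : Finset ι)
    (hG : ∀ i ∈ s, ∀ L : ℕ, ∃ B : Finset ℕ, Good B ∧ (∀ b ∈ B, L < b) ∧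
      ∀ α ∈ G i, ∃ b ∈ B, nearest (b * α) ≤ c) :
    ∀ L : ℕ, ∃ B : Finset ℕ, Good B ∧ (∀ b ∈ B, L < b) ∧
      ∀ i ∈ s, ∀ α ∈ G i, ∃ b ∈ B, nearest (b * α) ≤ c := by
  classical
  induction s using Finset.induction_on with
  | empty => intro L; exact ⟨∅, h.empty, by simp, by simp⟩
  | insert i s hi ih =>
    intro L
    obtain ⟨B, hB1, hB2, hB3⟩ := ih (fun j hj => hG j (Finset.mem_insert_of_mem hj)) L
    obtain ⟨C, hC1, hC2, hC3⟩ := hG i (Finset.mem_insert_self _ _) (L + W * B.sup id)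
    refine ⟨B ∪ C, h.union _ _ hB1 hC1 ?_, ?_, ?_⟩
    · intro a ha b hb
      have h1 := hC2 b hb
      have h2 : a ≤ B.sup id := Finset.le_sup (f := id) ha
      have h3 := Nat.mul_le_mul_left W h2
      omega
    · intro b hb
      rcases Finset.mem_union.1 hb with hb | hb
      · exact hB2 b hb
      · have := hC2 b hb; omega
    · intro j hj α hα
      rcases Finset.mem_insert.1 hj with rfl | hj
      · obtain ⟨b, hb, hb2⟩ := hC3 α hα
        exact ⟨b, Finset.mem_union_right _ hb, hb2⟩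
      · obtain ⟨b, hb, hb2⟩ := hB3 j hj α hα
        exact ⟨b, Finset.mem_union_left _ hb, hb2⟩

/-- The block method. Shifts `η j` may be replaced by bounded changes of integer offsets. -/
theorem universal (h : Sepr W Good) {J : Type*} [Fintype J] (η : J → ℝ) {ε c : ℝ} (hε : 0 < ε)
    (hc : ε ≤ c)
    (hJ : ∀ Q : ℕ, ∃ P : J → ℕ, ∀ y : J → ℕ, (∀ j, y j ≤ Q) → ∀ L : ℕ,
      ∃ B : Finset ℕ, Good B ∧ (∀ b ∈ B, L < b) ∧
        ∀ α : ℝ, (∀ j, nearest (((P j + y j : ℕ) : ℝ) * α + η j) ≤ ε) →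
          ∃ b ∈ B, nearest (b * α) ≤ c) :
    ∃ S : Finset ℕ, Good S ∧ (∀ s ∈ S, 0 < s) ∧ ∀ α : ℝ, ∃ s ∈ S, nearest (s * α) ≤ c := by
  classical
  have hW : 0 < W := by have := h.two_le; omega
  obtain ⟨q₀, hq₀⟩ := alternative hε
  obtain ⟨Q, hQ⟩ := hq₀ (ε / (W : ℝ) ^ q₀) (by positivity)
  obtain ⟨P, hP⟩ := hJ Q
  obtain ⟨B, hB1, hB2, hB3⟩ := combine h c
    (fun (y : J → Fin (Q + 1)) => {α : ℝ | ∀ j, nearest (((P j + y j : ℕ) : ℝ) * α + η j) ≤ ε})
    Finset.univ (fun y _ L => hP (fun j => y j) (fun j => by have := (y j).2; omega) L)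
    (W * (base W q₀).sup id)
  refine ⟨base W q₀ ∪ B, h.union _ _ (base_good h _) hB1 ?_, ?_, ?_⟩
  · intro a ha b hb
    have h1 := hB2 b hb
    have h2 : a ≤ (base W q₀).sup id := Finset.le_sup (f := id) ha
    have h3 := Nat.mul_le_mul_left W h2
    omega
  · intro s hs
    rcases Finset.mem_union.1 hs with hs | hs
    · obtain ⟨q, h1, h2, rfl⟩ := mem_base.1 hs
      positivity
    · have := hB2 s hs; omega
  · intro α
    rcases hQ α with ⟨q, hq1, hq2, hq3⟩ | hall
    · refine ⟨q * W ^ q, Finset.mem_union_left _ (mem_base.2 ⟨q, hq1, hq2, rfl⟩), ?_⟩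
      refine le_trans ?_ hc
      have h1 : ((q * W ^ q : ℕ) : ℝ) * α = ((W ^ q : ℕ) : ℝ) * (q * α) := by push_cast; ring
      rw [h1]
      refine (nearest_nat_mul_le _ _).trans ?_
      have h2 : ((W ^ q : ℕ) : ℝ) ≤ (W : ℝ) ^ q₀ := by
        push_cast
        exact pow_le_pow_right₀ (by exact_mod_cast hW) hq2
      calc ((W ^ q : ℕ) : ℝ) * nearest (q * α)
          ≤ (W : ℝ) ^ q₀ * (ε / (W : ℝ) ^ q₀) :=
            mul_le_mul h2 hq3 (nearest_nonneg _) (by positivity)
        _ = ε := mul_div_cancel₀ _ (by positivity)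
    · choose y hy1 hy2 using fun j => hall (P j * α + η j)
      obtain ⟨b, hb1, hb2⟩ := hB3 (fun j => ⟨y j, by have := hy1 j; omega⟩) (Finset.mem_univ _) α
        (by
          intro j
          have := hy2 j
          have h1 : (((P j + y j : ℕ) : ℝ)) * α + η j = y j * α + (P j * α + η j) := by
            push_cast; ring
          change nearest (((P j + y j : ℕ) : ℝ) * α + η j) ≤ ε
          rw [h1]
          exact this)
      exact ⟨b, Finset.mem_union_right _ hb1, hb2⟩

end Pool.Agent.W_0d5018_h9
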